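import Pool.Agent.Helper625.Planch

set_option autoImplicit false

open MeasureTheory FourierTransform

namespace Pool.Agent.Q234.GC

/-- The integral of the positive part of `π² - 4π²ξ²`. -/
lemma integral_cap : ∫ ξ in (-(1/2) : ℝ)..(1/2), (Real.pi ^ 2 - 4 * Real.pi ^ 2 * ξ ^ 2) =
    2 * Real.pi ^ 2 / 3 := by
  have h1 : ∀ ξ : ℝ, HasDerivAt (fun x : ℝ => Real.pi ^ 2 * x - 4 * Real.pi ^ 2 / 3 * x ^ 3)
      (Real.pi ^ 2 - 4 * Real.pi ^ 2 * ξ ^ 2) ξ := by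
    intro ξ
    have := ((hasDerivAt_id ξ).const_mul (Real.pi ^ 2)).sub
      (((hasDerivAt_id ξ).pow 3).const_mul (4 * Real.pi ^ 2 / 3))
    refine this.congr_deriv ?_
    simp
    ring
  rw [intervalIntegral.integral_eq_sub_of_hasDerivAt (fun x _ => h1 x)
    ((by fun_prop : Continuous fun ξ : ℝ => Real.pi ^ 2 - 4 * Real.pi ^ 2 * ξ ^ 2).intervalIntegrable _ _)]
  ring

theorem bathtub {N : ℕ} (h : Fin N → ℝ → ℂ) (hc : ∀ n, ContDiff ℝ 1 (h n))
    (hs : ∀ n, HasCompactSupport (h n)) (M : ℝ)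
    (hM : ∀ ξ, ∑ n, ‖𝓕 (h n) ξ‖ ^ 2 ≤ M) :
    Real.pi ^ 2 * (∑ n, ∫ t, ‖h n t‖ ^ 2) - (2 * Real.pi ^ 2 / 3) * M ≤
      ∑ n, ∫ t, ‖deriv (h n) t‖ ^ 2 := by
  have hM0 : 0 ≤ M := le_trans (Finset.sum_nonneg fun n _ => by positivity) (hM 0)
  have hint : ∀ n, Integrable (h n) := fun n => (hc n).continuous.integrable_of_hasCompactSupport (hs n)
  have hL2 : ∀ n, MemLp (h n) 2 := fun n => (hc n).continuous.memLp_of_hasCompactSupport (hs n)
  have hdc : ∀ n, Continuous (deriv (h n)) := fun n => (hc n).continuous_deriv (by norm_num)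
  have hds : ∀ n, HasCompactSupport (deriv (h n)) := fun n => (hs n).deriv
  have hint' : ∀ n, Integrable (deriv (h n)) := fun n =>
    (hdc n).integrable_of_hasCompactSupport (hds n)
  have hL2' : ∀ n, MemLp (deriv (h n)) 2 := fun n => (hdc n).memLp_of_hasCompactSupport (hds n)
  have hP := fun n => Pool.Agent.Helper625.Planch.plancherel (h n) (hint n) (hL2 n)
  have hP' := fun n => Pool.Agent.Helper625.Planch.plancherel (deriv (h n)) (hint' n) (hL2' n)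
  have hfd : ∀ n ξ, ‖𝓕 (deriv (h n)) ξ‖ ^ 2 = 4 * Real.pi ^ 2 * ξ ^ 2 * ‖𝓕 (h n) ξ‖ ^ 2 := by
    intro n ξ
    rw [Real.fourier_deriv (hint n) ((hc n).differentiable (by norm_num)) (hint' n)]
    simp only [norm_smul, mul_pow]
    have : ‖(2 * Real.pi * Complex.I * ξ : ℂ)‖ ^ 2 = 4 * Real.pi ^ 2 * ξ ^ 2 := by
      rw [norm_mul, norm_mul, norm_mul]
      simp only [Complex.norm_I, Complex.norm_real, Real.norm_eq_abs, Complex.norm_ofNat, mul_pow,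
        sq_abs]
      ring
    rw [this]
  have hi1 : ∀ n, Integrable (fun ξ => ‖𝓕 (h n) ξ‖ ^ 2) := fun n => (hP n).1.integrable_norm_pow (by norm_num)
  have hi2 : ∀ n, Integrable (fun ξ => ‖𝓕 (deriv (h n)) ξ‖ ^ 2) :=
    fun n => (hP' n).1.integrable_norm_pow (by norm_num)
  -- pointwise inequality
  set G : ℝ → ℝ := Set.indicator (Set.Ioc (-(1/2) : ℝ) (1/2)) (fun ξ => M * (Real.pi ^ 2 - 4 * Real.pi ^ 2 * ξ ^ 2)) with hG
  have hGint : Integrable G := by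
    rw [hG, integrable_indicator_iff measurableSet_Ioc]
    exact ((by fun_prop : Continuous fun ξ : ℝ => M * (Real.pi ^ 2 - 4 * Real.pi ^ 2 * ξ ^ 2)).continuousOn.integrableOn_compact
      isCompact_Icc).mono_set Set.Ioc_subset_Icc_self
  have hGval : ∫ ξ, G ξ = (2 * Real.pi ^ 2 / 3) * M := by
    rw [hG, integral_indicator measurableSet_Ioc, ← intervalIntegral.integral_of_le (by norm_num),
      intervalIntegral.integral_const_mul, integral_cap]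
    ring
  have hpt : ∀ ξ, Real.pi ^ 2 * ∑ n, ‖𝓕 (h n) ξ‖ ^ 2 - G ξ ≤ ∑ n, ‖𝓕 (deriv (h n)) ξ‖ ^ 2 := by
    intro ξ
    simp_rw [hfd]
    rw [← Finset.mul_sum]
    set S := ∑ n, ‖𝓕 (h n) ξ‖ ^ 2 with hS
    have hS0 : 0 ≤ S := Finset.sum_nonneg fun n _ => by positivity
    have hSM : S ≤ M := hM ξ
    by_cases hx : ξ ∈ Set.Ioc (-(1/2) : ℝ) (1/2)
    · rw [hG, Set.indicator_of_mem hx]
      have h4 : ξ ^ 2 ≤ 1 / 4 := by
        obtain ⟨h1, h2⟩ := hx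
        nlinarith
      have h5 : 0 ≤ Real.pi ^ 2 - 4 * Real.pi ^ 2 * ξ ^ 2 := by
        have := sq_nonneg Real.pi
        nlinarith
      nlinarith [mul_nonneg (sub_nonneg.2 hSM) h5]
    · rw [hG, Set.indicator_of_notMem hx]
      have h4 : 1 / 4 ≤ ξ ^ 2 := by
        simp only [Set.mem_Ioc, not_and_or, not_lt, not_le] at hx
        rcases hx with hx | hx <;> nlinarith
      have h5 : 0 ≤ 4 * Real.pi ^ 2 * ξ ^ 2 - Real.pi ^ 2 := by
        have := sq_nonneg Real.pi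
        nlinarith
      nlinarith [mul_nonneg hS0 h5]
  have hI : ∫ ξ, (Real.pi ^ 2 * ∑ n, ‖𝓕 (h n) ξ‖ ^ 2 - G ξ) ≤ ∫ ξ, ∑ n, ‖𝓕 (deriv (h n)) ξ‖ ^ 2 := by
    apply integral_mono _ _ hpt
    · exact ((integrable_finsetSum _ fun n _ => hi1 n).const_mul _).sub hGint
    · exact integrable_finsetSum _ fun n _ => hi2 n
  rw [integral_sub ((integrable_finsetSum _ fun n _ => hi1 n).const_mul _) hGint,
    integral_const_mul, integral_finsetSum _ (fun n _ => hi1 n),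
    integral_finsetSum _ (fun n _ => hi2 n), hGval] at hI
  have e1 : ∀ n, ∫ ξ, ‖𝓕 (h n) ξ‖ ^ 2 = ∫ t, ‖h n t‖ ^ 2 := fun n => (hP n).2
  have e2 : ∀ n, ∫ ξ, ‖𝓕 (deriv (h n)) ξ‖ ^ 2 = ∫ t, ‖deriv (h n) t‖ ^ 2 := fun n => (hP' n).2
  simp_rw [e1, e2] at hI
  exact hI

end Pool.Agent.Q234.GC
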