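import Mathlib

set_option autoImplicit false

open MeasureTheory ComplexConjugate

namespace Pool.Agent.Q234.GC

lemma isum {ι : Type*} (s : Finset ι) {f : ι → ℝ → ℂ} {a b : ℝ}
    (h : ∀ i ∈ s, IntervalIntegrable (f i) volume a b) :
    IntervalIntegrable (fun x => ∑ i ∈ s, f i x) volume a b := by
  have h1 := IntervalIntegrable.sum s h
  have h2 : (∑ i ∈ s, f i) = fun x => ∑ i ∈ s, f i x := by ext x; simp
  rwa [h2] at h1

/-- Bessel's inequality for continuous functions supported in `(a, b)`. -/
theorem bessel {N : ℕ} (u : Fin N → ℝ → ℂ) {a b : ℝ} (hab : a ≤ b)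
    (hu : ∀ n, Continuous (u n)) (hs : ∀ n x, x ∉ Set.Ioo a b → u n x = 0)
    (ho : ∀ n m, ∫ x, star (u n x) * u m x = if n = m then (1 : ℂ) else 0)
    (g : ℝ → ℂ) (hg : Continuous g) :
    ∑ n, ‖∫ x, g x * u n x‖ ^ 2 ≤ ∫ x in a..b, ‖g x‖ ^ 2 := by
  -- all integrals live on `[a, b]`
  have hI : ∀ F : ℝ → ℂ, (∀ x, x ∉ Set.Ioo a b → F x = 0) → ∫ x, F x = ∫ x in a..b, F x := by
    intro F hF
    rw [intervalIntegral.integral_of_le hab]
    rw [setIntegral_eq_integral_of_forall_compl_eq_zero]
    intro x hx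
    apply hF
    intro h
    exact hx ⟨h.1, h.2.le⟩
  set c : Fin N → ℂ := fun n => ∫ x, g x * u n x with hc
  have hc' : ∀ n, c n = ∫ x in a..b, g x * u n x := fun n => hI _ fun x hx => by
    rw [hs n x hx, mul_zero]
  have ho' : ∀ n m, ∫ x in a..b, star (u n x) * u m x = if n = m then (1 : ℂ) else 0 := by
    intro n m
    rw [← ho n m]
    refine (hI _ fun x hx => ?_).symm
    rw [hs m x hx, mul_zero]
  -- the remainder
  set R : ℝ → ℂ := fun x => conj (g x) - ∑ n, conj (c n) * u n x with hR
  have hRc : Continuous R := by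
    rw [hR]
    exact (Complex.continuous_conj.comp hg).sub (continuous_finsetSum _ fun n _ => continuous_const.mul (hu n))
  have h0 : (0 : ℝ) ≤ ∫ x in a..b, ‖R x‖ ^ 2 :=
    intervalIntegral.integral_nonneg hab fun x _ => by positivity
  have hexp : ∀ x, ((‖R x‖ ^ 2 : ℝ) : ℂ) = ((‖g x‖ ^ 2 : ℝ) : ℂ) - ∑ n, conj (c n) * (g x * u n x)
      - ∑ n, c n * conj (g x * u n x) + ∑ n, ∑ m, c n * conj (c m) * (star (u n x) * u m x) := by
    intro x
    have e1 : ((‖R x‖ ^ 2 : ℝ) : ℂ) = R x * conj (R x) := by
      rw [Complex.mul_conj, Complex.normSq_eq_norm_sq]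
    have e2 : ((‖g x‖ ^ 2 : ℝ) : ℂ) = g x * conj (g x) := by
      rw [Complex.mul_conj, Complex.normSq_eq_norm_sq]
    rw [e1, e2, hR]
    simp only [map_sub, map_sum, map_mul, Complex.conj_conj]
    have e3 : ∑ n, ∑ m, c n * conj (c m) * (star (u n x) * u m x) =
        (∑ m, conj (c m) * u m x) * (∑ n, c n * conj (u n x)) := by
      rw [Finset.sum_mul_sum, Finset.sum_comm]
      refine Finset.sum_congr rfl fun m _ => Finset.sum_congr rfl fun n _ => ?_
      rw [show star (u n x) = conj (u n x) from rfl]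
      ring
    have e4 : ∑ n, conj (c n) * (g x * u n x) = g x * ∑ n, conj (c n) * u n x := by
      rw [Finset.mul_sum]; exact Finset.sum_congr rfl fun n _ => by ring
    have e5 : ∑ n, c n * (conj (g x) * conj (u n x)) = conj (g x) * ∑ n, c n * conj (u n x) := by
      rw [Finset.mul_sum]; exact Finset.sum_congr rfl fun n _ => by ring
    rw [e3, e4, e5]
    ring
  have hint : ((∫ x in a..b, ‖R x‖ ^ 2 : ℝ) : ℂ) =
      ((∫ x in a..b, ‖g x‖ ^ 2 : ℝ) : ℂ) - ∑ n, conj (c n) * c n - ∑ n, c n * conj (c n)
        + ∑ n, ∑ m, c n * conj (c m) * (if n = m then (1 : ℂ) else 0) := by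
    rw [← intervalIntegral.integral_ofReal, ← intervalIntegral.integral_ofReal]
    simp_rw [hexp]
    have i1 : IntervalIntegrable (fun x => ((‖g x‖ ^ 2 : ℝ) : ℂ)) volume a b :=
      (Complex.continuous_ofReal.comp (hg.norm.pow 2)).intervalIntegrable _ _
    have i2 : ∀ n ∈ (Finset.univ : Finset (Fin N)),
        IntervalIntegrable (fun x => conj (c n) * (g x * u n x)) volume a b :=
      fun n _ => (continuous_const.mul (hg.mul (hu n))).intervalIntegrable _ _
    have i3 : ∀ n ∈ (Finset.univ : Finset (Fin N)),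
        IntervalIntegrable (fun x => c n * conj (g x * u n x)) volume a b :=
      fun n _ => (continuous_const.mul (Complex.continuous_conj.comp (hg.mul (hu n)))).intervalIntegrable _ _
    have i4 : ∀ n ∈ (Finset.univ : Finset (Fin N)), ∀ m ∈ (Finset.univ : Finset (Fin N)),
        IntervalIntegrable (fun x => c n * conj (c m) * (star (u n x) * u m x)) volume a b :=
      fun n _ m _ => (continuous_const.mul ((continuous_star.comp (hu n)).mul (hu m))).intervalIntegrable _ _
    have j2 : IntervalIntegrable (fun x => ∑ n, conj (c n) * (g x * u n x)) volume a b := isum _ i2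
    have j3 : IntervalIntegrable (fun x => ∑ n, c n * conj (g x * u n x)) volume a b := isum _ i3
    have j4' : ∀ n ∈ (Finset.univ : Finset (Fin N)),
        IntervalIntegrable (fun x => ∑ m, c n * conj (c m) * (star (u n x) * u m x)) volume a b := by
      intro n hn
      exact isum _ (i4 n hn)
    have j4 : IntervalIntegrable (fun x => ∑ n, ∑ m, c n * conj (c m) * (star (u n x) * u m x)) volume a b := isum _ j4'
    rw [intervalIntegral.integral_add ((i1.sub j2).sub j3) j4,
      intervalIntegral.integral_sub (i1.sub j2) j3, intervalIntegral.integral_sub i1 j2,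
      intervalIntegral.integral_finsetSum i2, intervalIntegral.integral_finsetSum i3,
      intervalIntegral.integral_finsetSum j4']
    congr 1
    · congr 1
      · congr 1
        refine Finset.sum_congr rfl fun n _ => ?_
        rw [intervalIntegral.integral_const_mul, ← hc' n]
      · refine Finset.sum_congr rfl fun n _ => ?_
        rw [intervalIntegral.integral_const_mul, hc' n]
        congr 1
        rw [intervalIntegral.integral_of_le hab, intervalIntegral.integral_of_le hab, integral_conj]
    · refine Finset.sum_congr rfl fun n hn => ?_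
      rw [intervalIntegral.integral_finsetSum (i4 n hn)]
      refine Finset.sum_congr rfl fun m _ => ?_
      rw [intervalIntegral.integral_const_mul, ho']
  have hfin : ((∫ x in a..b, ‖R x‖ ^ 2 : ℝ) : ℂ) =
      (((∫ x in a..b, ‖g x‖ ^ 2) - ∑ n, ‖c n‖ ^ 2 : ℝ) : ℂ) := by
    rw [hint]
    have s1 : ∑ n, conj (c n) * c n = ((∑ n, ‖c n‖ ^ 2 : ℝ) : ℂ) := by
      push_cast
      refine Finset.sum_congr rfl fun n _ => ?_
      rw [mul_comm, Complex.mul_conj, Complex.normSq_eq_norm_sq]
      push_cast; rfl
    have s2 : ∑ n, c n * conj (c n) = ((∑ n, ‖c n‖ ^ 2 : ℝ) : ℂ) := by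
      rw [← s1]; exact Finset.sum_congr rfl fun n _ => mul_comm _ _
    have s3 : ∑ n, ∑ m, c n * conj (c m) * (if n = m then (1 : ℂ) else 0) =
        ∑ n, c n * conj (c n) := by
      refine Finset.sum_congr rfl fun n _ => ?_
      simp
    rw [s3, s2, s1]
    push_cast
    ring
  have := Complex.ofReal_injective hfin
  linarith

end Pool.Agent.Q234.GC
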