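import Mathlib

set_option autoImplicit false

open MeasureTheory Filter Topology

namespace Pool.Agent.Q234.GC

/-- The change of variables `y = ∫ q`. -/
theorem change {q : ℝ → ℝ} (hq : Continuous q) {c : ℝ} (hc : 0 < c) (hcq : ∀ x, c ≤ q x) :
    ∃ y z : ℝ → ℝ, (∀ x, HasDerivAt y (q x) x) ∧ (∀ t, HasDerivAt z (q (z t))⁻¹ t) ∧
      (∀ x, z (y x) = x) ∧ (∀ t, y (z t) = t) ∧ Continuous z ∧ StrictMono y ∧
      (∀ g : ℝ → ℂ, ∫ t, g t = ∫ x, (q x : ℂ) * g (y x)) ∧
      (∀ g : ℝ → ℝ, ∫ t, g t = ∫ x, q x * g (y x)) := by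
  set y : ℝ → ℝ := fun x => ∫ s in (0:ℝ)..x, q s with hy
  have hd : ∀ x, HasDerivAt y (q x) x := fun x =>
    intervalIntegral.integral_hasDerivAt_right (hq.intervalIntegrable _ _)
      (hq.stronglyMeasurableAtFilter _ _) hq.continuousAt
  have hpos : ∀ x, 0 < q x := fun x => lt_of_lt_of_le hc (hcq x)
  have hmono : StrictMono y := strictMono_of_deriv_pos fun x => by rw [(hd x).deriv]; exact hpos x
  have hcont : Continuous y := continuous_iff_continuousAt.2 fun x => (hd x).continuousAt
  -- growth
  have hgrow : ∀ x, 0 ≤ x → c * x ≤ y x := by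
    intro x hx
    have : ∫ s in (0:ℝ)..x, c ≤ ∫ s in (0:ℝ)..x, q s :=
      intervalIntegral.integral_mono_on hx (by simp) (hq.intervalIntegrable _ _) fun s _ => hcq s
    simpa [mul_comm] using this
  have hgrow' : ∀ x, x ≤ 0 → y x ≤ c * x := by
    intro x hx
    have h1 : ∫ s in x..(0:ℝ), c ≤ ∫ s in x..(0:ℝ), q s :=
      intervalIntegral.integral_mono_on hx (by simp) (hq.intervalIntegrable _ _) fun s _ => hcq s
    have h2 : y x = - ∫ s in x..(0:ℝ), q s := by
      rw [hy]; exact intervalIntegral.integral_symm _ _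
    rw [h2]
    simp at h1
    linarith
  have htop : Tendsto y atTop atTop := by
    apply tendsto_atTop_mono' atTop (f₁ := fun x => c * x)
    · filter_upwards [eventually_ge_atTop 0] with x hx using hgrow x hx
    · exact tendsto_id.const_mul_atTop hc
  have hbot : Tendsto y atBot atBot := by
    apply tendsto_atBot_mono' atBot (f₁ := fun x => c * x)
    · filter_upwards [eventually_le_atBot 0] with x hx using hgrow' x hx
    · exact tendsto_id.const_mul_atBot hc
  have hsurj : Function.Surjective y := hcont.surjective htop hbot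
  let e := StrictMono.orderIsoOfSurjective y hmono hsurj
  have hey : ∀ x, e x = y x := fun x => rfl
  set z : ℝ → ℝ := fun t => e.symm t with hz
  have hzy : ∀ x, z (y x) = x := fun x => by
    rw [hz, ← hey]; exact e.symm_apply_apply x
  have hyz : ∀ t, y (z t) = t := fun t => by
    rw [hz, ← hey]; exact e.apply_symm_apply t
  have hzc : Continuous z := e.symm.continuous
  have hzd : ∀ t, HasDerivAt z (q (z t))⁻¹ t := by
    intro t
    exact HasDerivAt.of_local_left_inverse (f := y) hzc.continuousAt (hd (z t)) (hpos (z t)).ne'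
      (Eventually.of_forall hyz)
  refine ⟨y, z, hd, hzd, hzy, hyz, hzc, hmono, ?_, ?_⟩
  · intro g
    have := integral_image_eq_integral_abs_deriv_smul (MeasurableSet.univ (α := ℝ))
      (fun x _ => (hd x).hasDerivWithinAt) hmono.injective.injOn g
    rw [Set.image_univ, hsurj.range_eq, setIntegral_univ, setIntegral_univ] at this
    rw [this]
    congr 1
    ext x
    rw [abs_of_pos (hpos x)]
    simp
  · intro g
    have := integral_image_eq_integral_abs_deriv_smul (MeasurableSet.univ (α := ℝ))
      (fun x _ => (hd x).hasDerivWithinAt) hmono.injective.injOn g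
    rw [Set.image_univ, hsurj.range_eq, setIntegral_univ, setIntegral_univ] at this
    rw [this]
    congr 1
    ext x
    rw [abs_of_pos (hpos x)]
    simp

end Pool.Agent.Q234.GC
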