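import Pool.Agent.Q234.GC.Master

set_option autoImplicit false

open MeasureTheory

namespace Pool.Agent.Q234.GC

/-- The density of a system with occupation numbers. -/
noncomputable def dens {N : ℕ} (l : Fin N → ℝ) (u : Fin N → ℝ → ℂ) (x : ℝ) : ℝ :=
  ∑ n, l n * ‖u n x‖ ^ 2

variable {N : ℕ} {l : Fin N → ℝ} {u : Fin N → ℝ → ℂ}

lemma hasDerivAt_normsq (hu : ∀ n, ContDiff ℝ 1 (u n)) (n : Fin N) (x : ℝ) :
    HasDerivAt (fun x => ‖u n x‖ ^ 2) (2 * (star (u n x) * deriv (u n) x).re) x := by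
  have h1 : HasDerivAt (u n) (deriv (u n) x) x :=
    ((hu n).differentiable (by norm_num) x).hasDerivAt
  have h2 := h1.norm_sq
  refine h2.congr_deriv ?_
  rw [Complex.inner, mul_comm (deriv (u n) x)]
  rfl

lemma hasDerivAt_dens (l : Fin N → ℝ) (hu : ∀ n, ContDiff ℝ 1 (u n)) (x : ℝ) :
    HasDerivAt (dens l u) (∑ n, l n * (2 * (star (u n x) * deriv (u n) x).re)) x := by
  unfold dens
  have := HasDerivAt.fun_sum (u := Finset.univ) fun n _ => (hasDerivAt_normsq hu n x).const_mul (l n)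
  exact this

lemma contDiff_dens (l : Fin N → ℝ) (hu : ∀ n, ContDiff ℝ 1 (u n)) : ContDiff ℝ 1 (dens l u) := by
  unfold dens
  exact ContDiff.sum fun n _ => contDiff_const.mul ((hu n).norm_sq ℝ)

lemma dens_nonneg (hl : ∀ n, 0 ≤ l n) (x : ℝ) : 0 ≤ dens l u x :=
  Finset.sum_nonneg fun n _ => mul_nonneg (hl n) (by positivity)

/-- `(ρ')² ≤ 4 ρ Σ λ |u'|²`. -/
lemma deriv_dens_sq (hl : ∀ n, 0 ≤ l n) (hu : ∀ n, ContDiff ℝ 1 (u n)) (x : ℝ) :
    deriv (dens l u) x ^ 2 ≤ 4 * dens l u x * ∑ n, l n * ‖deriv (u n) x‖ ^ 2 := by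
  rw [(hasDerivAt_dens l hu x).deriv]
  have h1 : |∑ n, l n * (2 * (star (u n x) * deriv (u n) x).re)| ≤
      2 * ∑ n, (Real.sqrt (l n) * ‖u n x‖) * (Real.sqrt (l n) * ‖deriv (u n) x‖) := by
    refine (Finset.abs_sum_le_sum_abs _ _).trans ?_
    rw [Finset.mul_sum]
    refine Finset.sum_le_sum fun n _ => ?_
    rw [abs_mul, abs_mul, abs_of_nonneg (hl n), abs_two]
    have h2 : |(star (u n x) * deriv (u n) x).re| ≤ ‖u n x‖ * ‖deriv (u n) x‖ := by
      refine (Complex.abs_re_le_norm _).trans ?_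
      rw [norm_mul, norm_star]
    have h3 : Real.sqrt (l n) * Real.sqrt (l n) = l n := Real.mul_self_sqrt (hl n)
    calc l n * (2 * |(star (u n x) * deriv (u n) x).re|)
        ≤ l n * (2 * (‖u n x‖ * ‖deriv (u n) x‖)) := by
          have := hl n
          gcongr
      _ = 2 * ((Real.sqrt (l n) * Real.sqrt (l n)) * (‖u n x‖ * ‖deriv (u n) x‖)) := by rw [h3]; ring
      _ = _ := by ring
  have h4 := Finset.sum_mul_sq_le_sq_mul_sq (Finset.univ : Finset (Fin N))
    (fun n => Real.sqrt (l n) * ‖u n x‖) (fun n => Real.sqrt (l n) * ‖deriv (u n) x‖)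
  have h5 : ∑ n, (Real.sqrt (l n) * ‖u n x‖) ^ 2 = dens l u x := by
    unfold dens
    refine Finset.sum_congr rfl fun n _ => ?_
    rw [mul_pow, Real.sq_sqrt (hl n)]
  have h6 : ∑ n, (Real.sqrt (l n) * ‖deriv (u n) x‖) ^ 2 = ∑ n, l n * ‖deriv (u n) x‖ ^ 2 := by
    refine Finset.sum_congr rfl fun n _ => ?_
    rw [mul_pow, Real.sq_sqrt (hl n)]
  rw [h5, h6] at h4
  set S := ∑ n, l n * (2 * (star (u n x) * deriv (u n) x).re)
  set C := ∑ n, (Real.sqrt (l n) * ‖u n x‖) * (Real.sqrt (l n) * ‖deriv (u n) x‖)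
  have hC : 0 ≤ C := Finset.sum_nonneg fun n _ => by positivity
  calc S ^ 2 = |S| ^ 2 := (sq_abs S).symm
    _ ≤ (2 * C) ^ 2 := by gcongr
    _ = 4 * C ^ 2 := by ring
    _ ≤ 4 * (dens l u x * ∑ n, l n * ‖deriv (u n) x‖ ^ 2) := by gcongr
    _ = _ := by ring

/-- The square of the derivative of the square root of the density, where the density is positive. -/
lemma deriv_sqrt_dens (hu : ∀ n, ContDiff ℝ 1 (u n)) {x : ℝ} (hx : 0 < dens l u x) :
    deriv (fun x => Real.sqrt (dens l u x)) x ^ 2 = deriv (dens l u) x ^ 2 / (4 * dens l u x) := by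
  have h1 : HasDerivAt (dens l u) (deriv (dens l u) x) x :=
    ((contDiff_dens l hu).differentiable (by norm_num) x).hasDerivAt
  have h2 := h1.sqrt hx.ne'
  rw [h2.deriv, div_pow, mul_pow, Real.sq_sqrt hx.le]
  norm_num

lemma deriv_sqrt_le (hl : ∀ n, 0 ≤ l n) (hu : ∀ n, ContDiff ℝ 1 (u n)) (x : ℝ) :
    deriv (fun x => Real.sqrt (dens l u x)) x ^ 2 ≤ ∑ n, l n * ‖deriv (u n) x‖ ^ 2 := by
  have hT : 0 ≤ ∑ n, l n * ‖deriv (u n) x‖ ^ 2 :=
    Finset.sum_nonneg fun n _ => mul_nonneg (hl n) (by positivity)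
  rcases (dens_nonneg hl x (u := u)).eq_or_lt with h0 | h0
  · -- a zero of the density is a minimum of its root
    have hmin : IsLocalMin (fun x => Real.sqrt (dens l u x)) x := by
      refine Filter.Eventually.of_forall fun t => ?_
      simp only
      rw [← h0, Real.sqrt_zero]
      exact Real.sqrt_nonneg _
    rw [hmin.deriv_eq_zero]
    simpa using hT
  · rw [deriv_sqrt_dens hu h0, div_le_iff₀ (by positivity)]
    have := deriv_dens_sq hl hu x
    linarith

/-- The inequality for the regularised density. -/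
lemma kinetic_eps (hl0 : ∀ n, 0 ≤ l n) (hl1 : ∀ n, l n ≤ 1) (hu : ∀ n, ContDiff ℝ 1 (u n))
    {a b : ℝ} (hab : a ≤ b) (hs : ∀ n x, x ∉ Set.Ioo a b → u n x = 0)
    (ho : ∀ n m, ∫ x, star (u n x) * u m x = if n = m then (1 : ℂ) else 0)
    {ε : ℝ} (hε : 0 < ε) :
    Real.pi ^ 2 / 3 * (∫ x, dens l u x ^ 3) - Real.pi ^ 2 * ε ^ 2 * (∫ x in a..b, dens l u x)
        - 2 * Real.pi ^ 2 / 3 * ε ^ 3 * (b - a) ≤
      (∑ n, l n * ∫ x, ‖deriv (u n) x‖ ^ 2) +
        3 * ∫ x, (deriv (fun x => Real.sqrt (dens l u x)) x) ^ 2 := by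
  set v : Fin N → ℝ → ℂ := fun n x => (Real.sqrt (l n) : ℂ) * u n x with hv
  have hvC : ∀ n, ContDiff ℝ 1 (v n) := fun n => contDiff_const.mul (hu n)
  have hvs : ∀ n x, x ∉ Set.Ioo a b → v n x = 0 := fun n x hx => by
    simp only [hv]; rw [hs n x hx, mul_zero]
  have hvd : ∀ n x, deriv (v n) x = (Real.sqrt (l n) : ℂ) * deriv (u n) x := fun n x => by
    simp only [hv]
    exact deriv_const_mul _ ((hu n).differentiable (by norm_num) x)
  have hnv : ∀ n x, ‖v n x‖ ^ 2 = l n * ‖u n x‖ ^ 2 := fun n x => by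
    simp only [hv, norm_mul, mul_pow, Complex.norm_real, Real.norm_eq_abs, sq_abs,
      Real.sq_sqrt (hl0 n)]
  have hB : ∀ g : ℝ → ℂ, Continuous g → ∑ n, ‖∫ x, g x * v n x‖ ^ 2 ≤ ∫ x in a..b, ‖g x‖ ^ 2 := by
    intro g hg
    refine le_trans (Finset.sum_le_sum fun n _ => ?_)
      (bessel u hab (fun n => (hu n).continuous) hs ho g hg)
    have e1 : ∫ x, g x * v n x = (Real.sqrt (l n) : ℂ) * ∫ x, g x * u n x := by
      rw [← integral_const_mul]
      congr 1
      ext x
      simp only [hv]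
      ring
    rw [e1, norm_mul, mul_pow, Complex.norm_real, Real.norm_eq_abs, sq_abs, Real.sq_sqrt (hl0 n)]
    have : 0 ≤ ‖∫ x, g x * u n x‖ ^ 2 := by positivity
    nlinarith [hl1 n]
  set ρ : ℝ → ℝ := dens l u with hρ
  have hρC : ContDiff ℝ 1 ρ := contDiff_dens l hu
  have hρ0 : ∀ x, 0 ≤ ρ x := fun x => dens_nonneg hl0 x
  set q : ℝ → ℝ := fun x => ρ x + ε with hq
  have hqC : ContDiff ℝ 1 q := hρC.add contDiff_const
  have hqd : ∀ x, deriv q x = deriv ρ x := fun x => by simp only [hq, deriv_add_const]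
  have key := master v hvC hvs hB q hqC hε (fun x => by simp only [hq]; linarith [hρ0 x])
  -- zero outside `(a,b)`
  have hρz : ∀ x, x ∉ Set.Ioo a b → ρ x = 0 := fun x hx => by
    simp only [hρ, dens]
    refine Finset.sum_eq_zero fun n _ => ?_
    rw [hs n x hx]; simp
  have hcsupp : ∀ {F : ℝ → ℝ}, Continuous F → (∀ x, x ∉ Set.Icc a b → F x = 0) → Integrable F := by
    intro F hF hz
    exact hF.integrable_of_hasCompactSupport (HasCompactSupport.intro isCompact_Icc hz)
  have hcsuppI : ∀ {F : ℝ → ℝ}, (∀ x, x ∉ Set.Ioo a b → F x = 0) → ∫ x, F x = ∫ x in a..b, F x := by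
    intro F hF
    rw [intervalIntegral.integral_of_le hab, setIntegral_eq_integral_of_forall_compl_eq_zero]
    intro x hx
    exact hF x fun h => hx ⟨h.1, h.2.le⟩
  have hIcc : ∀ x, x ∉ Set.Icc a b → x ∉ Set.Ioo a b := fun x hx h => hx ⟨h.1.le, h.2.le⟩
  -- the derivative of `u n` vanishes outside `[a, b]`
  have hud0 : ∀ n x, x ∉ Set.Icc a b → deriv (u n) x = 0 := by
    intro n x hx
    have : u n =ᶠ[nhds x] fun _ => 0 := by
      filter_upwards [isClosed_Icc.isOpen_compl.mem_nhds hx] with t ht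
      exact hs n t (hIcc t ht)
    rw [this.deriv_eq]
    simp
  have hudc : ∀ n, Continuous (deriv (u n)) := fun n => (hu n).continuous_deriv (by norm_num)
  have hT : ∀ n, Integrable fun x => ‖deriv (u n) x‖ ^ 2 := fun n =>
    hcsupp ((hudc n).norm.pow 2) fun x hx => by rw [hud0 n x hx]; simp
  -- left-hand side
  have hL1 : ∑ n, ∫ x, q x ^ 2 * ‖v n x‖ ^ 2 = ∫ x in a..b, q x ^ 2 * ρ x := by
    have h1 : ∀ n, Integrable fun x => q x ^ 2 * ‖v n x‖ ^ 2 := fun n =>
      hcsupp ((hqC.continuous.pow 2).mul ((hvC n).continuous.norm.pow 2)) fun x hx => by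
        rw [hvs n x (hIcc x hx)]; simp
    rw [← integral_finsetSum _ (fun n _ => h1 n)]
    rw [hcsuppI]
    · congr 1
      ext x
      rw [← Finset.mul_sum]
      simp only [hρ, dens, hnv]
    · intro x hx
      refine Finset.sum_eq_zero fun n _ => ?_
      rw [hvs n x hx]; simp
  -- right-hand side, pointwise
  have hR : ∑ n, ∫ x, ‖deriv (v n) x + ((deriv q x / (2 * q x) : ℝ) : ℂ) * v n x‖ ^ 2 ≤
      (∑ n, l n * ∫ x, ‖deriv (u n) x‖ ^ 2) + 3 * ∫ x, (deriv (fun x => Real.sqrt (ρ x)) x) ^ 2 := by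
    have hqpos : ∀ x, 0 < q x := fun x => by simp only [hq]; linarith [hρ0 x]
    have hcc : ∀ n, Continuous fun x => ‖deriv (v n) x + ((deriv q x / (2 * q x) : ℝ) : ℂ) * v n x‖ ^ 2 := by
      intro n
      refine (Continuous.norm ?_).pow 2
      refine ((hvC n).continuous_deriv (by norm_num)).add ((Complex.continuous_ofReal.comp
        ((hqC.continuous_deriv (by norm_num)).div (continuous_const.mul hqC.continuous) ?_)).mul (hvC n).continuous)
      intro x
      exact (mul_pos two_pos (hqpos x)).ne'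
    have h1 : ∀ n, Integrable fun x => ‖deriv (v n) x + ((deriv q x / (2 * q x) : ℝ) : ℂ) * v n x‖ ^ 2 :=
      fun n => hcsupp (hcc n) fun x hx => by
        rw [hvs n x (hIcc x hx), hvd, hud0 n x hx]; simp
    have hTl : Integrable fun x => ∑ n, l n * ‖deriv (u n) x‖ ^ 2 :=
      integrable_finsetSum _ fun n _ => (hT n).const_mul _
    have hWm : Measurable fun x => deriv (fun x => Real.sqrt (ρ x)) x ^ 2 :=
      (measurable_deriv _).pow_const 2
    have hW : Integrable fun x => deriv (fun x => Real.sqrt (ρ x)) x ^ 2 := by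
      refine hTl.mono' hWm.aestronglyMeasurable (Filter.Eventually.of_forall fun x => ?_)
      rw [Real.norm_eq_abs, abs_of_nonneg (sq_nonneg _)]
      exact deriv_sqrt_le hl0 hu x
    rw [← integral_finsetSum _ (fun n _ => h1 n)]
    have e1 : (∑ n, l n * ∫ x, ‖deriv (u n) x‖ ^ 2) + 3 * ∫ x, (deriv (fun x => Real.sqrt (ρ x)) x) ^ 2 =
        ∫ x, ((∑ n, l n * ‖deriv (u n) x‖ ^ 2) + 3 * deriv (fun x => Real.sqrt (ρ x)) x ^ 2) := by
      rw [integral_add hTl (hW.const_mul 3), integral_finsetSum _ (fun n _ => (hT n).const_mul _),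
        integral_const_mul]
      congr 1
      refine Finset.sum_congr rfl fun n _ => ?_
      rw [integral_const_mul]
    rw [e1]
    refine integral_mono (integrable_finsetSum _ fun n _ => h1 n) (hTl.add (hW.const_mul 3)) fun x => ?_
    simp only
    -- expand
    set s : ℝ := deriv q x / (2 * q x) with hsdef
    have e2 : ∀ n, ‖deriv (v n) x + ((s : ℝ) : ℂ) * v n x‖ ^ 2 =
        l n * ‖deriv (u n) x‖ ^ 2 + s * (l n * (2 * (star (u n x) * deriv (u n) x).re)) +
          s ^ 2 * (l n * ‖u n x‖ ^ 2) := by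
      intro n
      have e3 : deriv (v n) x + (s : ℂ) * v n x = (Real.sqrt (l n) : ℂ) * (deriv (u n) x + (s : ℂ) * u n x) := by
        rw [hvd]; simp only [hv]; ring
      rw [e3, norm_mul, mul_pow, Complex.norm_real, Real.norm_eq_abs, sq_abs, Real.sq_sqrt (hl0 n)]
      have e4 : ‖deriv (u n) x + (s : ℂ) * u n x‖ ^ 2 = ‖deriv (u n) x‖ ^ 2 +
          s * (2 * (star (u n x) * deriv (u n) x).re) + s ^ 2 * ‖u n x‖ ^ 2 := by
        rw [← Complex.normSq_eq_norm_sq, ← Complex.normSq_eq_norm_sq, ← Complex.normSq_eq_norm_sq]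
        simp only [Complex.normSq_apply, Complex.add_re, Complex.add_im, Complex.mul_re, Complex.mul_im,
          Complex.ofReal_re, Complex.ofReal_im, Complex.star_def, Complex.conj_re, Complex.conj_im]
        ring
      rw [e4]
      ring
    simp_rw [e2]
    rw [Finset.sum_add_distrib, Finset.sum_add_distrib, ← Finset.mul_sum, ← Finset.mul_sum]
    have e5 : ∑ n, l n * (2 * (star (u n x) * deriv (u n) x).re) = deriv ρ x :=
      (hasDerivAt_dens l hu x).deriv.symm
    have e6 : ∑ n, l n * ‖u n x‖ ^ 2 = ρ x := rfl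
    rw [e5, e6]
    rcases (hρ0 x).eq_or_lt with h0 | h0
    · have h2 : deriv ρ x ^ 2 ≤ 4 * ρ x * ∑ n, l n * ‖deriv (u n) x‖ ^ 2 := deriv_dens_sq hl0 hu x
      rw [← h0] at h2 ⊢
      have h3 : deriv ρ x = 0 := by
        have : deriv ρ x ^ 2 ≤ 0 := by simpa using h2
        exact pow_eq_zero_iff (two_ne_zero) |>.1 (le_antisymm this (sq_nonneg _))
      rw [h3]
      have := sq_nonneg (deriv (fun x => Real.sqrt (ρ x)) x)
      simp only [mul_zero, add_zero]
      linarith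
    · have h2 : deriv (fun x => Real.sqrt (ρ x)) x ^ 2 = deriv ρ x ^ 2 / (4 * ρ x) := deriv_sqrt_dens hu h0
      rw [h2]
      have hq0 := hqpos x
      have hqe : q x = ρ x + ε := rfl
      rw [hsdef, hqd]
      have h3 : deriv ρ x / (2 * q x) * deriv ρ x + (deriv ρ x / (2 * q x)) ^ 2 * ρ x ≤
          3 * (deriv ρ x ^ 2 / (4 * ρ x)) := by
        have h4 : deriv ρ x / (2 * q x) * deriv ρ x = deriv ρ x ^ 2 * (1 / (2 * q x)) := by ring
        have h5 : (deriv ρ x / (2 * q x)) ^ 2 * ρ x = deriv ρ x ^ 2 * (ρ x / (4 * q x ^ 2)) := by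
          field_simp
          ring
        have h6 : 3 * (deriv ρ x ^ 2 / (4 * ρ x)) = deriv ρ x ^ 2 * (3 / (4 * ρ x)) := by ring
        rw [h4, h5, h6, ← mul_add]
        refine mul_le_mul_of_nonneg_left ?_ (sq_nonneg _)
        have h7 : 1 / (2 * q x) ≤ 1 / (2 * ρ x) := by
          apply one_div_le_one_div_of_le (by positivity)
          linarith
        have h8 : ρ x / (4 * q x ^ 2) ≤ 1 / (4 * ρ x) := by
          rw [div_le_div_iff₀ (by positivity) (by positivity)]
          have : ρ x ^ 2 ≤ q x ^ 2 := by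
            have : ρ x ≤ q x := by linarith
            gcongr
          nlinarith
        have h9 : 1 / (2 * ρ x) + 1 / (4 * ρ x) = 3 / (4 * ρ x) := by
          field_simp
          norm_num
        linarith
      linarith
  refine le_trans ?_ (key.trans hR)
  rw [hL1]
  have e7 : ∫ x, ρ x ^ 3 = ∫ x in a..b, ρ x ^ 3 := hcsuppI fun x hx => by rw [hρz x hx]; simp
  rw [e7]
  have c1 : Continuous ρ := hρC.continuous
  have i1 : IntervalIntegrable (fun x => ρ x ^ 3) volume a b := (c1.pow 3).intervalIntegrable _ _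
  have i2 : IntervalIntegrable (fun x => ρ x ^ 2) volume a b := (c1.pow 2).intervalIntegrable _ _
  have i3 : IntervalIntegrable (fun x => ρ x) volume a b := c1.intervalIntegrable _ _
  have f1 : ∫ x in a..b, q x ^ 2 * ρ x = (∫ x in a..b, ρ x ^ 3) + 2 * ε * (∫ x in a..b, ρ x ^ 2) +
      ε ^ 2 * ∫ x in a..b, ρ x := by
    rw [← intervalIntegral.integral_const_mul, ← intervalIntegral.integral_const_mul,
      ← intervalIntegral.integral_add i1 (i2.const_mul _),
      ← intervalIntegral.integral_add (i1.add (i2.const_mul _)) (i3.const_mul _)]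
    congr 1
    ext x
    simp only [hq]
    ring
  have f2 : ∫ x in a..b, q x ^ 3 = (∫ x in a..b, ρ x ^ 3) + 3 * ε * (∫ x in a..b, ρ x ^ 2) +
      3 * ε ^ 2 * (∫ x in a..b, ρ x) + ε ^ 3 * (b - a) := by
    have f3 : ε ^ 3 * (b - a) = ∫ x in a..b, ε ^ 3 := by simp [mul_comm]
    rw [f3, ← intervalIntegral.integral_const_mul, ← intervalIntegral.integral_const_mul,
      ← intervalIntegral.integral_add i1 (i2.const_mul _),
      ← intervalIntegral.integral_add (i1.add (i2.const_mul _)) (i3.const_mul _),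
      ← intervalIntegral.integral_add ((i1.add (i2.const_mul _)).add (i3.const_mul _)) (by simp)]
    congr 1
    ext x
    simp only [hq]
    ring
  rw [f1, f2]
  apply le_of_eq
  ring

theorem kinetic (hl0 : ∀ n, 0 ≤ l n) (hl1 : ∀ n, l n ≤ 1) (hu : ∀ n, ContDiff ℝ 1 (u n))
    (hs : ∀ n, HasCompactSupport (u n))
    (ho : ∀ n m, ∫ x, star (u n x) * u m x = if n = m then (1 : ℂ) else 0) :
    Real.pi ^ 2 / 3 * (∫ x, dens l u x ^ 3) ≤
      (∑ n, l n * ∫ x, ‖deriv (u n) x‖ ^ 2) +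
        3 * ∫ x, (deriv (fun x => Real.sqrt (dens l u x)) x) ^ 2 := by
  -- a common interval
  have hK : IsCompact (⋃ n, tsupport (u n)) := isCompact_iUnion fun n => hs n
  obtain ⟨R, hR⟩ := hK.isBounded.subset_closedBall 0
  set A : ℝ := |R| + 1 with hA
  have hApos : 0 < A := by positivity
  have hsupp : ∀ n x, x ∉ Set.Ioo (-A) A → u n x = 0 := by
    intro n x hx
    by_contra h
    have h1 : x ∈ tsupport (u n) := subset_tsupport _ h
    have h2 := hR (Set.mem_iUnion.2 ⟨n, h1⟩)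
    rw [Metric.mem_closedBall, dist_zero_right, Real.norm_eq_abs] at h2
    apply hx
    have h3 : |x| < A := by
      have := le_abs_self R
      linarith
    exact abs_lt.1 h3
  set X := (∑ n, l n * ∫ x, ‖deriv (u n) x‖ ^ 2) +
        3 * ∫ x, (deriv (fun x => Real.sqrt (dens l u x)) x) ^ 2 with hX
  have hlim : Filter.Tendsto (fun ε : ℝ => Real.pi ^ 2 / 3 * (∫ x, dens l u x ^ 3) -
      Real.pi ^ 2 * ε ^ 2 * (∫ x in (-A)..A, dens l u x) - 2 * Real.pi ^ 2 / 3 * ε ^ 3 * (A - -A))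
      (nhdsWithin 0 (Set.Ioi 0)) (nhds (Real.pi ^ 2 / 3 * (∫ x, dens l u x ^ 3))) := by
    have hc : Continuous fun ε : ℝ => Real.pi ^ 2 / 3 * (∫ x, dens l u x ^ 3) -
      Real.pi ^ 2 * ε ^ 2 * (∫ x in (-A)..A, dens l u x) - 2 * Real.pi ^ 2 / 3 * ε ^ 3 * (A - -A) := by
      fun_prop
    have := hc.tendsto 0
    simp only [ne_eq, OfNat.ofNat_ne_zero, not_false_eq_true, zero_pow, mul_zero, zero_mul, sub_zero] at this
    exact this.mono_left nhdsWithin_le_nhds
  refine le_of_tendsto hlim ?_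
  filter_upwards [self_mem_nhdsWithin] with ε hε
  exact kinetic_eps hl0 hl1 hu (by linarith) hsupp ho hε

end Pool.Agent.Q234.GC
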