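import Pool.Agent.Q234.GC.Bathtub
import Pool.Agent.Q234.GC.Change
import Pool.Agent.Q234.GC.Bessel

set_option autoImplicit false

open MeasureTheory FourierTransform

namespace Pool.Agent.Q234.GC

theorem master {N : ℕ} (u : Fin N → ℝ → ℂ) (hu : ∀ n, ContDiff ℝ 1 (u n)) {a b : ℝ}
    (hs : ∀ n x, x ∉ Set.Ioo a b → u n x = 0)
    (hB : ∀ g : ℝ → ℂ, Continuous g → ∑ n, ‖∫ x, g x * u n x‖ ^ 2 ≤ ∫ x in a..b, ‖g x‖ ^ 2)
    (q : ℝ → ℝ) (hq : ContDiff ℝ 1 q) {c : ℝ} (hc : 0 < c) (hcq : ∀ x, c ≤ q x) :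
    Real.pi ^ 2 * (∑ n, ∫ x, q x ^ 2 * ‖u n x‖ ^ 2) - (2 * Real.pi ^ 2 / 3) * (∫ x in a..b, q x ^ 3) ≤
      ∑ n, ∫ x, ‖deriv (u n) x + ((deriv q x / (2 * q x) : ℝ) : ℂ) * u n x‖ ^ 2 := by
  obtain ⟨y, z, hy, hz, hzy, hyz, hzc, hmono, hcC, hcR⟩ := change hq.continuous hc hcq
  have hpos : ∀ x, 0 < q x := fun x => lt_of_lt_of_le hc (hcq x)
  have hqd : ∀ x, HasDerivAt q (deriv q x) x := fun x =>
    (hq.differentiable (by norm_num) x).hasDerivAt
  have hqdc : Continuous (deriv q) := hq.continuous_deriv (by norm_num)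
  have hud : ∀ n x, HasDerivAt (u n) (deriv (u n) x) x := fun n x =>
    ((hu n).differentiable (by norm_num) x).hasDerivAt
  have hudc : ∀ n, Continuous (deriv (u n)) := fun n => (hu n).continuous_deriv (by norm_num)
  set w : Fin N → ℝ → ℂ := fun n x => deriv (u n) x + ((deriv q x / (2 * q x) : ℝ) : ℂ) * u n x with hw
  have hwc : ∀ n, Continuous (w n) := by
    intro n
    refine (hudc n).add ((Complex.continuous_ofReal.comp (hqdc.div (continuous_const.mul hq.continuous) ?_)).mul (hu n).continuous)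
    intro x
    exact (mul_pos two_pos (hpos x)).ne'
  set v : Fin N → ℝ → ℂ := fun n x => (Real.sqrt (q x) : ℂ) * u n x with hv
  have hvd : ∀ n x, HasDerivAt (v n) ((Real.sqrt (q x) : ℂ) * w n x) x := by
    intro n x
    have h1 : HasDerivAt (fun x => Real.sqrt (q x)) (deriv q x / (2 * Real.sqrt (q x))) x :=
      (hqd x).sqrt (hpos x).ne'
    have h2 := (h1.ofReal_comp).mul (hud n x)
    refine h2.congr_deriv ?_
    have hs0 : (Real.sqrt (q x) : ℂ) ≠ 0 := by
      exact_mod_cast (Real.sqrt_pos.2 (hpos x)).ne'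
    have hs1 : (q x : ℂ) = (Real.sqrt (q x) : ℂ) * (Real.sqrt (q x) : ℂ) := by
      rw [← Complex.ofReal_mul, Real.mul_self_sqrt (hpos x).le]
    simp only [hw]
    push_cast
    rw [hs1]
    field_simp
    ring
  set h : Fin N → ℝ → ℂ := fun n t => v n (z t) with hh
  have hhd : ∀ n t, HasDerivAt (h n) ((((q (z t))⁻¹ : ℝ) : ℂ) * ((Real.sqrt (q (z t)) : ℂ) * w n (z t))) t := by
    intro n t
    have := (hvd n (z t)).scomp t (hz t)
    exact this
  have hhderiv : ∀ n, deriv (h n) = fun t => (((q (z t))⁻¹ : ℝ) : ℂ) * ((Real.sqrt (q (z t)) : ℂ) * w n (z t)) :=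
    fun n => funext fun t => (hhd n t).deriv
  have hhC : ∀ n, ContDiff ℝ 1 (h n) := by
    intro n
    rw [contDiff_one_iff_deriv]
    refine ⟨fun t => (hhd n t).differentiableAt, ?_⟩
    rw [hhderiv n]
    have h1 : Continuous fun t => (q (z t))⁻¹ := (hq.continuous.comp hzc).inv₀ fun t => (hpos _).ne'
    have h2 : Continuous fun t => Real.sqrt (q (z t)) := (hq.continuous.comp hzc).sqrt
    exact (Complex.continuous_ofReal.comp h1).mul ((Complex.continuous_ofReal.comp h2).mul ((hwc n).comp hzc))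
  have hhS : ∀ n, HasCompactSupport (h n) := by
    intro n
    refine HasCompactSupport.intro (isCompact_Icc (a := y a) (b := y b)) fun t ht => ?_
    simp only [hh, hv]
    rw [hs n (z t), mul_zero]
    intro hmem
    apply ht
    have h1 := hmono hmem.1
    have h2 := hmono hmem.2
    rw [hyz] at h1 h2
    exact ⟨h1.le, h2.le⟩
  have hF : ∀ n ξ, 𝓕 (h n) ξ = ∫ x, ((q x : ℂ) * (Real.fourierChar (-(y x * ξ)) : ℂ) * (Real.sqrt (q x) : ℂ)) * u n x := by
    intro n ξ
    rw [Real.fourier_real_eq, hcC]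
    congr 1
    ext x
    simp only [hh, hv, hzy, Circle.smul_def, smul_eq_mul]
    ring
  have hyc : Continuous y := continuous_iff_continuousAt.2 fun x => (hy x).continuousAt
  have hbes : ∀ ξ, ∑ n, ‖𝓕 (h n) ξ‖ ^ 2 ≤ ∫ x in a..b, q x ^ 3 := by
    intro ξ
    simp_rw [hF]
    have hgc : Continuous fun x : ℝ => ((q x : ℂ) * (Real.fourierChar (-(y x * ξ)) : ℂ) * (Real.sqrt (q x) : ℂ)) := by
      refine ((Complex.continuous_ofReal.comp hq.continuous).mul ?_).mul
        (Complex.continuous_ofReal.comp hq.continuous.sqrt)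
      exact continuous_subtype_val.comp (Real.continuous_fourierChar.comp (hyc.mul continuous_const).neg)
    refine (hB _ hgc).trans_eq ?_
    congr 1
    ext x
    rw [norm_mul, norm_mul, Circle.norm_coe, Complex.norm_real, Complex.norm_real, Real.norm_eq_abs,
      Real.norm_eq_abs, abs_of_pos (hpos x), abs_of_nonneg (Real.sqrt_nonneg _)]
    have := Real.sq_sqrt (hpos x).le
    calc (q x * 1 * Real.sqrt (q x)) ^ 2 = q x ^ 2 * Real.sqrt (q x) ^ 2 := by ring
      _ = q x ^ 3 := by rw [this]; ring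
  have key := bathtub h hhC hhS _ hbes
  have e1 : ∀ n, ∫ t, ‖h n t‖ ^ 2 = ∫ x, q x ^ 2 * ‖u n x‖ ^ 2 := by
    intro n
    rw [hcR]
    congr 1
    ext x
    simp only [hh, hv, hzy, norm_mul, mul_pow, Complex.norm_real, Real.norm_eq_abs]
    rw [sq_abs, Real.sq_sqrt (hpos x).le]
    ring
  have e2 : ∀ n, ∫ t, ‖deriv (h n) t‖ ^ 2 = ∫ x, ‖w n x‖ ^ 2 := by
    intro n
    rw [hcR, hhderiv n]
    congr 1
    ext x
    simp only [hzy, norm_mul, mul_pow, Complex.norm_real, Real.norm_eq_abs, sq_abs]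
    rw [Real.sq_sqrt (hpos x).le]
    have := (hpos x).ne'
    field_simp
  simp_rw [e1, e2] at key
  exact key

end Pool.Agent.Q234.GC
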