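import Pool.Agent.Q234.GC.Kinetic

set_option autoImplicit false

open MeasureTheory

namespace Pool.Agent.Q234.GC

/-- The master inequality for a positive function without a uniform lower bound. -/
theorem master_pos {N : ℕ} (u : Fin N → ℝ → ℂ) (hu : ∀ n, ContDiff ℝ 1 (u n)) {a b : ℝ}
    (hab : a ≤ b) (hs : ∀ n x, x ∉ Set.Ioo a b → u n x = 0)
    (hB : ∀ g : ℝ → ℂ, Continuous g → ∑ n, ‖∫ x, g x * u n x‖ ^ 2 ≤ ∫ x in a..b, ‖g x‖ ^ 2)
    (q : ℝ → ℝ) (hq : ContDiff ℝ 1 q) (hpos : ∀ x, 0 < q x) :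
    Real.pi ^ 2 * (∑ n, ∫ x, q x ^ 2 * ‖u n x‖ ^ 2) - (2 * Real.pi ^ 2 / 3) * (∫ x in a..b, q x ^ 3) ≤
      ∑ n, ∫ x, ‖deriv (u n) x + ((deriv q x / (2 * q x) : ℝ) : ℂ) * u n x‖ ^ 2 := by
  set m : ℝ := (a + b) / 2 with hm
  let f : ContDiffBump m := ⟨(b - a) / 2 + 1, (b - a) / 2 + 2, by linarith, by linarith⟩
  have hfC : ContDiff ℝ 1 f := f.contDiff
  set Q : ℝ → ℝ := fun x => f x * q x + (1 - f x) with hQ
  have hQC : ContDiff ℝ 1 Q := (hfC.mul hq).add (contDiff_const.sub hfC)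
  -- agreement near `[a, b]`
  have hball : ∀ x, x ∈ Set.Icc a b → x ∈ Metric.ball m ((b - a) / 2 + 1) := by
    intro x hx
    rw [Metric.mem_ball, Real.dist_eq, abs_lt]
    constructor <;> linarith [hx.1, hx.2]
  have hone : ∀ x, x ∈ Metric.ball m ((b - a) / 2 + 1) → Q x = q x := by
    intro x hx
    have : f x = 1 := f.one_of_mem_closedBall (Metric.ball_subset_closedBall hx)
    simp only [hQ, this]
    ring
  have hd : ∀ x, x ∈ Set.Icc a b → deriv Q x = deriv q x := by
    intro x hx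
    have : Q =ᶠ[nhds x] q := by
      filter_upwards [Metric.isOpen_ball.mem_nhds (hball x hx)] with t ht using hone t ht
    exact this.deriv_eq
  -- a positive lower bound
  obtain ⟨x0, -, hx0⟩ := (isCompact_closedBall m ((b - a) / 2 + 2)).exists_isMinOn
    ⟨m, Metric.mem_closedBall_self (by linarith)⟩ hq.continuous.continuousOn
  have hcQ : ∀ x, min (q x0) 1 ≤ Q x := by
    intro x
    by_cases hx : x ∈ Metric.closedBall m ((b - a) / 2 + 2)
    · have h1 : q x0 ≤ q x := hx0 hx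
      have h2 : 0 ≤ f x := f.nonneg
      have h3 : f x ≤ 1 := f.le_one
      have h4 : min (q x0) 1 ≤ q x := (min_le_left _ _).trans h1
      have h5 : min (q x0) 1 ≤ 1 := min_le_right _ _
      simp only [hQ]
      nlinarith
    · have : f x = 0 := by
        apply f.zero_of_le_dist
        rw [Metric.mem_closedBall, not_le] at hx
        exact hx.le
      simp only [hQ, this]
      simp
  have key := master u hu hs hB Q hQC (lt_min (hpos x0) one_pos) hcQ
  have e1 : ∀ n, ∫ x, Q x ^ 2 * ‖u n x‖ ^ 2 = ∫ x, q x ^ 2 * ‖u n x‖ ^ 2 := by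
    intro n
    congr 1
    ext x
    by_cases hx : x ∈ Set.Ioo a b
    · rw [hone x (hball x ⟨hx.1.le, hx.2.le⟩)]
    · rw [hs n x hx]; simp
  have e2 : ∫ x in a..b, Q x ^ 3 = ∫ x in a..b, q x ^ 3 := by
    apply intervalIntegral.integral_congr
    intro x hx
    rw [Set.uIcc_of_le hab] at hx
    simp only
    rw [hone x (hball x hx)]
  have e3 : ∀ n, ∫ x, ‖deriv (u n) x + ((deriv Q x / (2 * Q x) : ℝ) : ℂ) * u n x‖ ^ 2 =
      ∫ x, ‖deriv (u n) x + ((deriv q x / (2 * q x) : ℝ) : ℂ) * u n x‖ ^ 2 := by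
    intro n
    congr 1
    ext x
    by_cases hx : x ∈ Set.Ioo a b
    · have hx' : x ∈ Set.Icc a b := ⟨hx.1.le, hx.2.le⟩
      rw [hone x (hball x hx'), hd x hx']
    · rw [hs n x hx]; simp
  simp_rw [e1, e3] at key
  rw [e2] at key
  exact key

/-- The Schrödinger operator with an arbitrary continuous potential. -/
theorem potential {N : ℕ} (l : Fin N → ℝ) (hl0 : ∀ n, 0 ≤ l n) (hl1 : ∀ n, l n ≤ 1)
    (u : Fin N → ℝ → ℂ) (hu : ∀ n, ContDiff ℝ 1 (u n)) {a b : ℝ}
    (hab : a ≤ b) (hs : ∀ n x, x ∉ Set.Ioo a b → u n x = 0)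
    (ho : ∀ n m, ∫ x, star (u n x) * u m x = if n = m then (1 : ℂ) else 0)
    (V y₁ y₂ z₁ z₂ : ℝ → ℝ) (hV : Continuous V)
    (h1 : ∀ x, HasDerivAt y₁ (z₁ x) x) (h2 : ∀ x, HasDerivAt y₂ (z₂ x) x)
    (h1' : ∀ x, HasDerivAt z₁ (-(V x * y₁ x)) x) (h2' : ∀ x, HasDerivAt z₂ (-(V x * y₂ x)) x)
    (hW : ∀ x, y₁ x * z₂ x - z₁ x * y₂ x = 1) :
    -(2 / (3 * Real.pi)) * (∫ x in a..b, ((y₁ x ^ 2 + y₂ x ^ 2) ^ 3)⁻¹) ≤
      ∑ n, l n * ∫ x, (‖deriv (u n) x‖ ^ 2 - V x * ‖u n x‖ ^ 2) := by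
  have hc1 : Continuous y₁ := continuous_iff_continuousAt.2 fun x => (h1 x).continuousAt
  have hc2 : Continuous y₂ := continuous_iff_continuousAt.2 fun x => (h2 x).continuousAt
  have hz1 : Continuous z₁ := continuous_iff_continuousAt.2 fun x => (h1' x).continuousAt
  have hz2 : Continuous z₂ := continuous_iff_continuousAt.2 fun x => (h2' x).continuousAt
  set P : ℝ → ℝ := fun x => y₁ x ^ 2 + y₂ x ^ 2 with hP
  have hPpos : ∀ x, 0 < P x := by
    intro x
    have h0 : 0 ≤ P x := by simp only [hP]; positivity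
    rcases h0.eq_or_lt with h | h
    · exfalso
      have hy1 : y₁ x = 0 := by
        have : y₁ x ^ 2 ≤ 0 := by simp only [hP] at h; nlinarith [sq_nonneg (y₂ x)]
        exact pow_eq_zero_iff (two_ne_zero) |>.1 (le_antisymm this (sq_nonneg _))
      have hy2 : y₂ x = 0 := by
        have : y₂ x ^ 2 ≤ 0 := by simp only [hP] at h; nlinarith [sq_nonneg (y₁ x)]
        exact pow_eq_zero_iff (two_ne_zero) |>.1 (le_antisymm this (sq_nonneg _))
      have := hW x
      rw [hy1, hy2] at this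
      simp at this
    · exact h
  set D : ℝ → ℝ := fun x => 2 * (y₁ x * z₁ x + y₂ x * z₂ x) with hD
  have hPd : ∀ x, HasDerivAt P (D x) x := by
    intro x
    have := ((h1 x).pow 2).add ((h2 x).pow 2)
    refine this.congr_deriv ?_
    simp only [hD]
    push_cast
    ring
  have hDd : ∀ x, HasDerivAt D (2 * (z₁ x ^ 2 + z₂ x ^ 2) - 2 * V x * P x) x := by
    intro x
    have := (((h1 x).mul (h1' x)).add ((h2 x).mul (h2' x))).const_mul 2
    refine this.congr_deriv ?_
    simp only [hP]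
    ring
  have hDc : Continuous D := continuous_iff_continuousAt.2 fun x => (hDd x).continuousAt
  have hPc : Continuous P := continuous_iff_continuousAt.2 fun x => (hPd x).continuousAt
  set q : ℝ → ℝ := fun x => (Real.pi * P x)⁻¹ with hq
  have hqpos : ∀ x, 0 < q x := fun x => inv_pos.2 (mul_pos Real.pi_pos (hPpos x))
  have hqd : ∀ x, HasDerivAt q (-(Real.pi * D x) / (Real.pi * P x) ^ 2) x := by
    intro x
    exact ((hPd x).const_mul Real.pi).inv (mul_pos Real.pi_pos (hPpos x)).ne'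
  have hqC : ContDiff ℝ 1 q := by
    rw [contDiff_one_iff_deriv]
    refine ⟨fun x => (hqd x).differentiableAt, ?_⟩
    have : deriv q = fun x => -(Real.pi * D x) / (Real.pi * P x) ^ 2 := funext fun x => (hqd x).deriv
    rw [this]
    refine (continuous_const.mul hDc).neg.div ((continuous_const.mul hPc).pow 2) fun x => ?_
    have := mul_pos Real.pi_pos (hPpos x)
    positivity
  set s : ℝ → ℝ := fun x => -(D x / (2 * P x)) with hsdef
  have hsq : ∀ x, deriv q x / (2 * q x) = s x := by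
    intro x
    rw [(hqd x).deriv]
    simp only [hq, hsdef]
    have hp := Real.pi_pos.ne'
    have hP0 := (hPpos x).ne'
    field_simp
  -- derivative of `s`
  set s' : ℝ → ℝ := fun x => s x ^ 2 + V x - (P x ^ 2)⁻¹ with hs'
  have hsd : ∀ x, HasDerivAt s (s' x) x := by
    intro x
    have hP0 := (hPpos x).ne'
    have := ((hDd x).div ((hPd x).const_mul 2) (by positivity)).neg
    refine this.congr_deriv ?_
    simp only [hs', hsdef]
    have hw := hW x
    have hPx : P x = y₁ x ^ 2 + y₂ x ^ 2 := rfl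
    have hDx : D x = 2 * (y₁ x * z₁ x + y₂ x * z₂ x) := rfl
    have hid : (z₁ x ^ 2 + z₂ x ^ 2) * P x = (D x / 2) ^ 2 + 1 := by
      have : (1 : ℝ) = (y₁ x * z₂ x - z₁ x * y₂ x) ^ 2 := by rw [hw]; norm_num
      rw [this, hPx, hDx]
      ring
    have hid2 : z₁ x ^ 2 + z₂ x ^ 2 = ((D x / 2) ^ 2 + 1) / P x := by
      rw [eq_div_iff hP0, hid]
    rw [hid2]
    field_simp
    ring
  have hsc : Continuous s := continuous_iff_continuousAt.2 fun x => (hsd x).continuousAt
  have hs'c : Continuous s' := by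
    exact ((hsc.pow 2).add hV).sub ((hPc.pow 2).inv₀ fun x => (pow_pos (hPpos x) 2).ne')
  -- the weighted system
  set v : Fin N → ℝ → ℂ := fun n x => (Real.sqrt (l n) : ℂ) * u n x with hv
  have hvC : ∀ n, ContDiff ℝ 1 (v n) := fun n => contDiff_const.mul (hu n)
  have hvs : ∀ n x, x ∉ Set.Ioo a b → v n x = 0 := fun n x hx => by
    simp only [hv]; rw [hs n x hx, mul_zero]
  have hvd : ∀ n x, deriv (v n) x = (Real.sqrt (l n) : ℂ) * deriv (u n) x := fun n x => by
    simp only [hv]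
    exact deriv_const_mul _ ((hu n).differentiable (by norm_num) x)
  have hB : ∀ g : ℝ → ℂ, Continuous g → ∑ n, ‖∫ x, g x * v n x‖ ^ 2 ≤ ∫ x in a..b, ‖g x‖ ^ 2 := by
    intro g hg
    refine le_trans (Finset.sum_le_sum fun n _ => ?_)
      (bessel u hab (fun n => (hu n).continuous) hs ho g hg)
    have e1 : ∫ x, g x * v n x = (Real.sqrt (l n) : ℂ) * ∫ x, g x * u n x := by
      rw [← integral_const_mul]
      congr 1
      ext x
      simp only [hv]
      ring
    rw [e1, norm_mul, mul_pow, Complex.norm_real, Real.norm_eq_abs, sq_abs, Real.sq_sqrt (hl0 n)]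
    have : 0 ≤ ‖∫ x, g x * u n x‖ ^ 2 := by positivity
    nlinarith [hl1 n]
  have key := master_pos v hvC hab hvs hB q hqC hqpos
  have hIcc : ∀ x, x ∉ Set.Icc a b → x ∉ Set.Ioo a b := fun x hx h => hx ⟨h.1.le, h.2.le⟩
  have hcsupp : ∀ {F : ℝ → ℝ}, Continuous F → (∀ x, x ∉ Set.Icc a b → F x = 0) → Integrable F := by
    intro F hF hz
    exact hF.integrable_of_hasCompactSupport (HasCompactSupport.intro isCompact_Icc hz)
  have hud0 : ∀ n x, x ∉ Set.Icc a b → deriv (u n) x = 0 := by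
    intro n x hx
    have : u n =ᶠ[nhds x] fun _ => 0 := by
      filter_upwards [isClosed_Icc.isOpen_compl.mem_nhds hx] with t ht
      exact hs n t (hIcc t ht)
    rw [this.deriv_eq]
    simp
  have hudc : ∀ n, Continuous (deriv (u n)) := fun n => (hu n).continuous_deriv (by norm_num)
  -- the expansion
  have hexp : ∀ n, ∫ x, ‖deriv (v n) x + ((deriv q x / (2 * q x) : ℝ) : ℂ) * v n x‖ ^ 2 =
      l n * (∫ x, (‖deriv (u n) x‖ ^ 2 - V x * ‖u n x‖ ^ 2)) + Real.pi ^ 2 * ∫ x, q x ^ 2 * ‖v n x‖ ^ 2 := by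
    intro n
    set B : ℝ → ℝ := fun x => s x * ‖u n x‖ ^ 2 with hBdef
    set B' : ℝ → ℝ := fun x => s' x * ‖u n x‖ ^ 2 + s x * (2 * (star (u n x) * deriv (u n) x).re) with hB'
    have hBd : ∀ x, HasDerivAt B (B' x) x := fun x => (hsd x).mul (hasDerivAt_normsq hu n x)
    have hBc : Continuous B := hsc.mul ((hu n).continuous.norm.pow 2)
    have hB'c : Continuous B' := by
      refine (hs'c.mul ((hu n).continuous.norm.pow 2)).add (hsc.mul (continuous_const.mul ?_))
      exact Complex.continuous_re.comp ((continuous_star.comp (hu n).continuous).mul (hudc n))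
    have hBi : Integrable B := hcsupp hBc fun x hx => by
      simp only [hBdef]; rw [hs n x (hIcc x hx)]; simp
    have hB'i : Integrable B' := hcsupp hB'c fun x hx => by
      simp only [hB']; rw [hs n x (hIcc x hx)]; simp
    have hB0 : ∫ x, B' x = 0 := integral_eq_zero_of_hasDerivAt_of_integrable hBd hB'i hBi
    have hpt : ∀ x, ‖deriv (v n) x + ((deriv q x / (2 * q x) : ℝ) : ℂ) * v n x‖ ^ 2 =
        l n * (‖deriv (u n) x‖ ^ 2 - V x * ‖u n x‖ ^ 2) + l n * B' x +
          Real.pi ^ 2 * (q x ^ 2 * ‖v n x‖ ^ 2) := by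
      intro x
      rw [hsq]
      have e3 : deriv (v n) x + (s x : ℂ) * v n x =
          (Real.sqrt (l n) : ℂ) * (deriv (u n) x + (s x : ℂ) * u n x) := by
        rw [hvd]; simp only [hv]; ring
      have e4 : ‖deriv (u n) x + (s x : ℂ) * u n x‖ ^ 2 = ‖deriv (u n) x‖ ^ 2 +
          s x * (2 * (star (u n x) * deriv (u n) x).re) + s x ^ 2 * ‖u n x‖ ^ 2 := by
        rw [← Complex.normSq_eq_norm_sq, ← Complex.normSq_eq_norm_sq, ← Complex.normSq_eq_norm_sq]
        simp only [Complex.normSq_apply, Complex.add_re, Complex.add_im, Complex.mul_re, Complex.mul_im,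
          Complex.ofReal_re, Complex.ofReal_im, Complex.star_def, Complex.conj_re, Complex.conj_im]
        ring
      have e5 : ‖v n x‖ ^ 2 = l n * ‖u n x‖ ^ 2 := by
        simp only [hv, norm_mul, mul_pow, Complex.norm_real, Real.norm_eq_abs, sq_abs,
          Real.sq_sqrt (hl0 n)]
      have e6 : Real.pi ^ 2 * q x ^ 2 = (P x ^ 2)⁻¹ := by
        simp only [hq]
        have hp := Real.pi_pos.ne'
        have hP0 := (hPpos x).ne'
        field_simp
      rw [e3, norm_mul, mul_pow, Complex.norm_real, Real.norm_eq_abs, sq_abs, Real.sq_sqrt (hl0 n),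
        e4, e5, ← mul_assoc (Real.pi ^ 2), e6]
      simp only [hB', hs']
      ring
    have i1 : Integrable fun x => ‖deriv (u n) x‖ ^ 2 - V x * ‖u n x‖ ^ 2 :=
      hcsupp (((hudc n).norm.pow 2).sub (hV.mul ((hu n).continuous.norm.pow 2))) fun x hx => by
        rw [hud0 n x hx, hs n x (hIcc x hx)]; simp
    have i2 : Integrable fun x => q x ^ 2 * ‖v n x‖ ^ 2 :=
      hcsupp ((hqC.continuous.pow 2).mul ((hvC n).continuous.norm.pow 2)) fun x hx => by
        rw [hvs n x (hIcc x hx)]; simp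
    simp_rw [hpt]
    have i3 : Integrable fun x => l n * (‖deriv (u n) x‖ ^ 2 - V x * ‖u n x‖ ^ 2) + l n * B' x :=
      (i1.const_mul _).add (hB'i.const_mul _)
    rw [integral_add i3 (i2.const_mul _),
      integral_add (i1.const_mul _) (hB'i.const_mul _), integral_const_mul, integral_const_mul,
      integral_const_mul, hB0]
    ring
  simp_rw [hexp] at key
  rw [Finset.sum_add_distrib, ← Finset.mul_sum] at key
  have e8 : 2 * Real.pi ^ 2 / 3 * ∫ x in a..b, q x ^ 3 = 2 / (3 * Real.pi) * ∫ x in a..b, ((y₁ x ^ 2 + y₂ x ^ 2) ^ 3)⁻¹ := by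
    rw [← intervalIntegral.integral_const_mul, ← intervalIntegral.integral_const_mul]
    congr 1
    ext x
    have hPx : P x = y₁ x ^ 2 + y₂ x ^ 2 := rfl
    rw [← hPx]
    simp only [hq]
    have hp := Real.pi_pos.ne'
    have hP0 := (hPpos x).ne'
    field_simp
  rw [e8] at key
  linarith

end Pool.Agent.Q234.GC
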