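import Mathlib

set_option autoImplicit false

open MeasureTheory

namespace Pool.Agent.Q234.GC

lemma sum_k (N : ℕ) : ∑ n : Fin N, ((n : ℝ) - ((N : ℝ) - 1) / 2) ^ 2 = (N : ℝ) * ((N : ℝ) ^ 2 - 1) / 12 := by
  rw [Fin.sum_univ_eq_sum_range (fun n : ℕ => ((n : ℝ) - ((N : ℝ) - 1) / 2) ^ 2)]
  have h : ∀ (c : ℝ) (M : ℕ), ∑ n ∈ Finset.range M, ((n : ℝ) - c) ^ 2 =
      (M : ℝ) * (M - 1) * (2 * M - 1) / 6 - c * (M * (M - 1)) + M * c ^ 2 := by
    intro c M
    induction M with
    | zero => simp
    | succ M ih =>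
      rw [Finset.sum_range_succ, ih]
      push_cast
      ring
  rw [h]
  ring

/-- A system of `N` functions with prescribed density and nearly semiclassical kinetic energy. -/
theorem upper (N : ℕ) (hN : 1 ≤ N) (r : ℝ → ℝ) (hr : ContDiff ℝ 1 r) (hs : HasCompactSupport r)
    (hint : ∫ x, r x ^ 2 = N) :
    ∃ u : Fin N → ℝ → ℂ, (∀ n, ContDiff ℝ 1 (u n) ∧ HasCompactSupport (u n)) ∧
      (∀ n m, ∫ x, star (u n x) * u m x = if n = m then (1 : ℂ) else 0) ∧
      (∀ x, ∑ n, ‖u n x‖ ^ 2 = r x ^ 2) ∧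
      ∑ n, ∫ x, ‖deriv (u n) x‖ ^ 2 =
        (∫ x, deriv r x ^ 2) + Real.pi ^ 2 / 3 * (1 - 1 / (N : ℝ) ^ 2) * ∫ x, r x ^ 6 := by
  have hN0 : (0 : ℝ) < N := by exact_mod_cast hN
  have hrc : Continuous r := hr.continuous
  have hrd : ∀ x, HasDerivAt r (deriv r x) x := fun x => (hr.differentiable (by norm_num) x).hasDerivAt
  have hrdc : Continuous (deriv r) := hr.continuous_deriv (by norm_num)
  -- an interval
  obtain ⟨R, hR⟩ := hs.isCompact.isBounded.subset_closedBall 0
  set A : ℝ := |R| + 1 with hA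
  have hApos : 0 < A := by positivity
  have hsupp : ∀ x, x ∉ Set.Ioo (-A) A → r x = 0 := by
    intro x hx
    by_contra h
    have h1 : x ∈ tsupport r := subset_tsupport _ h
    have h2 := hR h1
    rw [Metric.mem_closedBall, dist_zero_right, Real.norm_eq_abs] at h2
    apply hx
    have h3 : |x| < A := by
      have := le_abs_self R
      linarith
    exact abs_lt.1 h3
  set y : ℝ → ℝ := fun x => ∫ t in (-A)..x, r t ^ 2 with hy
  have hyd : ∀ x, HasDerivAt y (r x ^ 2) x := fun x =>
    intervalIntegral.integral_hasDerivAt_right ((hrc.pow 2).intervalIntegrable _ _)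
      ((hrc.pow 2).stronglyMeasurableAtFilter _ _) (hrc.pow 2).continuousAt
  have hyc : Continuous y := continuous_iff_continuousAt.2 fun x => (hyd x).continuousAt
  have hy0 : y (-A) = 0 := by simp [hy]
  have hyA : y A = N := by
    rw [← hint]
    simp only [hy]
    rw [intervalIntegral.integral_of_le (by linarith), setIntegral_eq_integral_of_forall_compl_eq_zero]
    intro x hx
    rw [hsupp x fun h => hx ⟨h.1, h.2.le⟩]
    simp
  set k : Fin N → ℝ := fun n => 2 * Real.pi / N * ((n : ℝ) - ((N : ℝ) - 1) / 2) with hk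
  set e : ℝ → ℝ → ℂ := fun c x => Complex.exp (((c * y x : ℝ) : ℂ) * Complex.I) with he
  have hed : ∀ c x, HasDerivAt (e c) (((c * r x ^ 2 : ℝ) : ℂ) * Complex.I * e c x) x := by
    intro c x
    have h1 : HasDerivAt (fun x => ((c * y x : ℝ) : ℂ) * Complex.I) (((c * r x ^ 2 : ℝ) : ℂ) * Complex.I) x :=
      (((hyd x).const_mul c).ofReal_comp).mul_const _
    refine h1.cexp.congr_deriv ?_
    simp only [he]
    ring
  have hen : ∀ c x, ‖e c x‖ = 1 := fun c x => Complex.norm_exp_ofReal_mul_I _
  have hec : ∀ c, Continuous (e c) := fun c => continuous_iff_continuousAt.2 fun x => (hed c x).continuousAt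
  set u : Fin N → ℝ → ℂ := fun n x => ((r x / Real.sqrt N : ℝ) : ℂ) * e (k n) x with hu
  have hud : ∀ n x, HasDerivAt (u n)
      ((((deriv r x / Real.sqrt N : ℝ) : ℂ) + ((r x / Real.sqrt N * (k n * r x ^ 2) : ℝ) : ℂ) * Complex.I) * e (k n) x) x := by
    intro n x
    have h1 : HasDerivAt (fun x => ((r x / Real.sqrt N : ℝ) : ℂ)) ((deriv r x / Real.sqrt N : ℝ) : ℂ) x :=
      ((hrd x).div_const _).ofReal_comp
    refine (h1.mul (hed (k n) x)).congr_deriv ?_
    push_cast
    ring
  have hsN : Real.sqrt N ^ 2 = N := Real.sq_sqrt hN0.le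
  have hsN0 : Real.sqrt N ≠ 0 := (Real.sqrt_pos.2 hN0).ne'
  have hderiv : ∀ n, deriv (u n) = fun x => (((deriv r x / Real.sqrt N : ℝ) : ℂ) +
      ((r x / Real.sqrt N * (k n * r x ^ 2) : ℝ) : ℂ) * Complex.I) * e (k n) x :=
    fun n => funext fun x => (hud n x).deriv
  have huC : ∀ n, ContDiff ℝ 1 (u n) := by
    intro n
    rw [contDiff_one_iff_deriv]
    refine ⟨fun x => (hud n x).differentiableAt, ?_⟩
    rw [hderiv n]
    refine ((Complex.continuous_ofReal.comp (hrdc.div_const _)).add
      ((Complex.continuous_ofReal.comp ((hrc.div_const _).mul (continuous_const.mul (hrc.pow 2)))).mul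
        continuous_const)).mul (hec _)
  have hnu : ∀ n x, ‖u n x‖ ^ 2 = r x ^ 2 / N := by
    intro n x
    simp only [hu, norm_mul, hen, mul_one, Complex.norm_real, Real.norm_eq_abs, sq_abs]
    rw [div_pow, hsN]
  have hnd : ∀ n x, ‖deriv (u n) x‖ ^ 2 = (deriv r x ^ 2 + k n ^ 2 * r x ^ 6) / N := by
    intro n x
    rw [hderiv n]
    simp only [norm_mul, hen, mul_one]
    rw [← Complex.normSq_eq_norm_sq, Complex.normSq_add_mul_I, div_pow, mul_pow, div_pow, hsN]
    ring
  have hcs : ∀ {F : ℝ → ℝ}, Continuous F → (∀ x, x ∉ Set.Icc (-A) A → F x = 0) → Integrable F := by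
    intro F hF hz
    exact hF.integrable_of_hasCompactSupport (HasCompactSupport.intro isCompact_Icc hz)
  have hIcc : ∀ x, x ∉ Set.Icc (-A) A → x ∉ Set.Ioo (-A) A := fun x hx h => hx ⟨h.1.le, h.2.le⟩
  have hrd0 : ∀ x, x ∉ Set.Icc (-A) A → deriv r x = 0 := by
    intro x hx
    have : r =ᶠ[nhds x] fun _ => 0 := by
      filter_upwards [isClosed_Icc.isOpen_compl.mem_nhds hx] with t ht
      exact hsupp t (hIcc t ht)
    rw [this.deriv_eq]
    simp
  refine ⟨u, fun n => ⟨huC n, ?_⟩, ?_, ?_, ?_⟩
  · refine HasCompactSupport.intro (isCompact_Icc (a := -A) (b := A)) fun x hx => ?_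
    simp only [hu]
    rw [hsupp x (hIcc x hx)]
    simp
  · intro n m
    have h1 : ∀ x, star (u n x) * u m x = ((r x ^ 2 / N : ℝ) : ℂ) * e (k m - k n) x := by
      intro x
      have h2 : star (e (k n) x) = Complex.exp (-(((k n * y x : ℝ) : ℂ) * Complex.I)) := by
        rw [Complex.star_def, he]
        simp only
        rw [← Complex.exp_conj]
        congr 1
        simp
      have h3 : star (((r x / Real.sqrt N : ℝ) : ℂ)) = ((r x / Real.sqrt N : ℝ) : ℂ) := by
        rw [Complex.star_def, Complex.conj_ofReal]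
      simp only [hu, star_mul']
      rw [h3, h2]
      have h4 : e (k m - k n) x = Complex.exp (-(((k n * y x : ℝ) : ℂ) * Complex.I)) * e (k m) x := by
        simp only [he]
        rw [← Complex.exp_add]
        congr 1
        push_cast
        ring
      rw [h4]
      have h5 : ((r x ^ 2 / N : ℝ) : ℂ) = ((r x / Real.sqrt N : ℝ) : ℂ) * ((r x / Real.sqrt N : ℝ) : ℂ) := by
        rw [← Complex.ofReal_mul]
        congr 1
        rw [div_mul_div_comm, ← sq, ← sq, hsN]
      rw [h5]
      ring
    simp_rw [h1]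
    by_cases hnm : n = m
    · subst hnm
      simp only [sub_self, if_true]
      have h6 : ∀ x, ((r x ^ 2 / N : ℝ) : ℂ) * e 0 x = ((r x ^ 2 / N : ℝ) : ℂ) := fun x => by
        simp [he]
      simp_rw [h6]
      rw [integral_complex_ofReal, integral_div, hint, div_self hN0.ne']
      simp
    · rw [if_neg hnm]
      set c := k m - k n with hc
      have hc' : c = 2 * Real.pi / N * ((m : ℝ) - (n : ℝ)) := by
        simp only [hc, hk]; ring
      have hc0 : c ≠ 0 := by
        rw [hc']
        have : (m : ℝ) - (n : ℝ) ≠ 0 := by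
          rw [sub_ne_zero]
          intro h
          apply hnm
          have : (m : ℕ) = (n : ℕ) := by exact_mod_cast h
          exact (Fin.ext this).symm
        have := Real.pi_pos
        positivity
      have h7 : ∀ x, HasDerivAt (fun x => e c x / ((N * c : ℝ) * Complex.I)) (((r x ^ 2 / N : ℝ) : ℂ) * e c x) x := by
        intro x
        refine ((hed c x).div_const _).congr_deriv ?_
        have a1 : (N : ℂ) ≠ 0 := by exact_mod_cast hN0.ne'
        have a2 : (c : ℂ) ≠ 0 := by exact_mod_cast hc0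
        have a3 := Complex.I_ne_zero
        push_cast
        field_simp
      have h8 : ∫ x, ((r x ^ 2 / N : ℝ) : ℂ) * e c x = ∫ x in (-A)..A, ((r x ^ 2 / N : ℝ) : ℂ) * e c x := by
        rw [intervalIntegral.integral_of_le (by linarith), setIntegral_eq_integral_of_forall_compl_eq_zero]
        intro x hx
        rw [hsupp x fun h => hx ⟨h.1, h.2.le⟩]
        simp
      rw [h8, intervalIntegral.integral_eq_sub_of_hasDerivAt (fun x _ => h7 x)]
      · have h9 : e c A = 1 := by
          simp only [he]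
          rw [hyA, hc']
          rw [Complex.exp_eq_one_iff]
          refine ⟨(m : ℤ) - (n : ℤ), ?_⟩
          have a1 : (N : ℂ) ≠ 0 := by exact_mod_cast hN0.ne'
          push_cast
          field_simp
        have h10 : e c (-A) = 1 := by
          simp only [he]
          rw [hy0]
          simp
        rw [h9, h10, sub_self]
      · exact ((Complex.continuous_ofReal.comp ((hrc.pow 2).div_const _)).mul (hec c)).intervalIntegrable _ _
  · intro x
    simp_rw [hnu]
    rw [Finset.sum_const, Finset.card_univ, Fintype.card_fin, nsmul_eq_mul]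
    field_simp
  · simp_rw [hnd]
    have i1 : Integrable fun x => deriv r x ^ 2 := hcs (hrdc.pow 2) fun x hx => by
      rw [hrd0 x hx]; simp
    have i2 : Integrable fun x => r x ^ 6 := hcs (hrc.pow 6) fun x hx => by
      rw [hsupp x (hIcc x hx)]; simp
    have h1 : ∀ n, ∫ x, (deriv r x ^ 2 + k n ^ 2 * r x ^ 6) / N =
        ((∫ x, deriv r x ^ 2) + k n ^ 2 * ∫ x, r x ^ 6) / N := by
      intro n
      rw [integral_div, integral_add i1 (i2.const_mul _), integral_const_mul]
    simp_rw [h1]
    rw [← Finset.sum_div, Finset.sum_add_distrib, Finset.sum_const, Finset.card_univ, Fintype.card_fin,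
      nsmul_eq_mul, ← Finset.sum_mul]
    have h2 : ∑ n, k n ^ 2 = (2 * Real.pi / N) ^ 2 * ((N : ℝ) * ((N : ℝ) ^ 2 - 1) / 12) := by
      rw [← sum_k, Finset.mul_sum]
      refine Finset.sum_congr rfl fun n _ => ?_
      simp only [hk]
      ring
    rw [h2]
    field_simp
    ring

end Pool.Agent.Q234.GC
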